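import Pool.Agent.N174.OC.Op

/-!
# The algebra of algebraic operators
-/

open CategoryTheory

set_option autoImplicit false

universe u v

namespace Pool.Agent.N174.OC

open Pool.Agent.W539.DI Pool.Agent.R941.OH

variable {𝒪 : Type u} [Category.{v} 𝒪] [Preadditive 𝒪] [Linear ℚ 𝒪] {n : ℕ}
  (T : CorTheory 𝒪 n)

/-- The algebra of the algebraic operators on the cohomology of `X`. -/
noncomputable def Ealg (X : 𝒪) : Subalgebra ℚ (Matrix (T.r X).ι (T.r X).ι ℚ) where
  carrier := {A | IsAlg T (toOp (T.r X) A)}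
  mul_mem' := fun {a b} ha hb => by
    simp only [Set.mem_ofPred_eq] at *
    rw [map_mul]
    exact IsAlg.mul T ha hb
  add_mem' := fun {a b} ha hb => by
    simp only [Set.mem_ofPred_eq] at *
    rw [map_add]
    exact IsAlg.add T ha hb
  algebraMap_mem' := fun c => by
    simp only [Set.mem_ofPred_eq]
    have h : toOp (T.r X) (algebraMap ℚ (Matrix (T.r X).ι (T.r X).ι ℚ) c) = (c : ℂ) • 1 := by
      ext x
      have := rho_smul (toOp (T.r X)) c 1 x
      rw [← Algebra.algebraMap_eq_smul_one] at this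
      rw [this, map_one]
      rfl
    rw [h]
    exact IsAlg.smul T c (IsAlg.one T)

variable {X Y : 𝒪}

/-- Its action on the cohomology of `X`. -/
noncomputable def rhoE (X : 𝒪) : Ealg T X →+* Module.End ℂ (T.K X).R :=
  (toOp (T.r X)).comp ((Ealg T X).val : Ealg T X →+* Matrix (T.r X).ι (T.r X).ι ℚ)

lemma rhoE_inj : Function.Injective (rhoE T X) := fun A B h => Subtype.ext (toOp_inj (T.r X) h)

lemma rhoE_alg (A : Ealg T X) : IsAlg T (rhoE T X A) := A.2

lemma exists_E {a : Module.End ℂ (T.K X).R} (ha : IsAlg T a) : ∃ A, rhoE T X A = a := by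
  obtain ⟨A, hA⟩ := exists_mat (T.r X) (a := a) (by
    obtain ⟨Γ, rfl⟩ := ha
    exact T.act_rat Γ)
  refine ⟨⟨A, ?_⟩, hA⟩
  show IsAlg T (toOp (T.r X) A)
  rw [hA]
  exact ha

/-- The algebraic operators act on the cohomology of `X`. -/
theorem exists_actM (hB : T.ConjB X) :
    ∃ A : Act (Ealg T X) (T.K X), A.ρ = rhoE T X := by
  obtain ⟨L, hL⟩ := (lef (T.K X)).exists_lift (rhoE T X) (rhoE_inj T)
    (fun m => exists_E T (isAlg_dg T hB m))
    (exists_E T (isAlg_om T))
    (fun j => exists_E T (isAlg_kap T hB j))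
  obtain ⟨c, hc⟩ := exists_E T (isAlg_c T (X := X))
  refine ⟨{ ρ := rhoE T X, inj := rhoE_inj T, typ_mem := fun A p q x hx => ?_, L := L, hL := hL,
            c := c, hc := hc, adj := fun a => ?_ }, rfl⟩
  · obtain ⟨Γ, hΓ⟩ := rhoE_alg T A
    rw [← hΓ]
    exact act_typ T Γ p q x hx
  · obtain ⟨b, hb, h⟩ := alg_adj T hB (rhoE_alg T a)
    obtain ⟨B, rfl⟩ := exists_E T hb
    exact ⟨B, h⟩

section transport

variable {v : X ⟶ Y} {w : Y ⟶ X} (h : T.IsDerivedPair v w)

include h in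
lemma wv (x : (T.K X).R) : T.act w (T.act v x) = x := by
  have e1 : T.act w ∘ₗ T.act v = LinearMap.id := by rw [← T.act_comp, h.left, T.act_id]
  exact congrArg (fun f : (T.K X).R →ₗ[ℂ] (T.K X).R => f x) e1

include h in
lemma vw (y : (T.K Y).R) : T.act v (T.act w y) = y := by
  have e1 : T.act v ∘ₗ T.act w = LinearMap.id := by rw [← T.act_comp, h.right, T.act_id]
  exact congrArg (fun f : (T.K Y).R →ₗ[ℂ] (T.K Y).R => f y) e1

/-- The action on the cohomology of `Y`. -/
noncomputable def rhoF : Ealg T X →+* Module.End ℂ (T.K Y).R where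
  toFun := fun A => T.act v ∘ₗ rhoE T X A ∘ₗ T.act w
  map_one' := by
    rw [map_one]
    ext y
    exact vw T h y
  map_mul' := fun a b => by
    rw [map_mul]
    ext y
    simp only [LinearMap.comp_apply, Module.End.mul_apply, wv T h]
  map_zero' := by
    ext y
    simp
  map_add' := fun a b => by
    ext y
    simp

lemma rhoF_apply (A : Ealg T X) : rhoF T h A = T.act v ∘ₗ rhoE T X A ∘ₗ T.act w := rfl

lemma rhoF_inj : Function.Injective (rhoF T h) := by
  intro A B hAB
  apply rhoE_inj T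
  ext x
  have h3 := congrArg (fun g : Module.End ℂ (T.K Y).R => T.act w (g (T.act v x))) hAB
  simp only [rhoF_apply, LinearMap.comp_apply, wv T h] at h3
  exact h3

lemma rhoF_alg (A : Ealg T X) : IsAlg T (rhoF T h A) :=
  IsAlg.comp T (isAlg_act T v) (IsAlg.comp T (rhoE_alg T A) (isAlg_act T w))

lemma exists_F {b : Module.End ℂ (T.K Y).R} (hb : IsAlg T b) : ∃ A, rhoF T h A = b := by
  obtain ⟨A, hA⟩ := exists_E T (a := T.act w ∘ₗ b ∘ₗ T.act v)
    (IsAlg.comp T (isAlg_act T w) (IsAlg.comp T hb (isAlg_act T v)))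
  refine ⟨A, ?_⟩
  ext y
  rw [rhoF_apply, hA]
  simp only [LinearMap.comp_apply, vw T h]

/-- They act on the cohomology of `Y`. -/
theorem exists_actN (hB : T.ConjB Y) : ∃ B : Act (Ealg T X) (T.K Y), B.ρ = rhoF T h := by
  obtain ⟨L, hL⟩ := (lef (T.K Y)).exists_lift (rhoF T h) (rhoF_inj T h)
    (fun m => exists_F T h (isAlg_dg T hB m))
    (exists_F T h (isAlg_om T))
    (fun j => exists_F T h (isAlg_kap T hB j))
  obtain ⟨c, hc⟩ := exists_F T h (isAlg_c T)
  refine ⟨{ ρ := rhoF T h, inj := rhoF_inj T h, typ_mem := fun A p q x hx => ?_, L := L,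
            hL := hL, c := c, hc := hc, adj := fun a => ?_ }, rfl⟩
  · obtain ⟨Γ, hΓ⟩ := rhoF_alg T h A
    rw [← hΓ]
    exact act_typ T Γ p q x hx
  · obtain ⟨b, hb, h'⟩ := alg_adj T hB (rhoF_alg T h a)
    obtain ⟨B, rfl⟩ := exists_F T h hb
    exact ⟨B, h'⟩

/-- The parts of the cohomology of `X` and `Y` in the degrees `m` with `D m` are isomorphic by
algebraic operators. -/
def SameAlg (X Y : 𝒪) (D : ℕ → Prop) : Prop :=
  ∃ (a : (T.K X).R →ₗ[ℂ] (T.K Y).R) (b : (T.K Y).R →ₗ[ℂ] (T.K X).R), IsAlg T a ∧ IsAlg T b ∧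
    b ∘ₗ a = proj (T.K X) D ∧ a ∘ₗ b = proj (T.K Y) D

theorem same_iff' (A : Act (Ealg T X) (T.K X)) (B : Act (Ealg T X) (T.K Y)) (hA : A.ρ = rhoE T X)
    (hB : B.ρ = rhoF T h) (D : ℕ → Prop) [DecidablePred D] :
    SameAlg T X Y D ↔ ∀ S : Submodule (Ealg T X) (Ealg T X),
      tS S (A.L.pD D) = tS S (B.L.pD D) := by
  constructor
  · rintro ⟨a, b, ha, hb, hba, hab⟩ S
    obtain ⟨b', hb'⟩ := exists_E T (a := T.act w ∘ₗ a) (IsAlg.comp T (isAlg_act T w) ha)
    obtain ⟨a', ha'⟩ := exists_E T (a := b ∘ₗ T.act v) (IsAlg.comp T hb (isAlg_act T v))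
    refine equiv_tS (a := a') (b := b') ?_ ?_ S
    · apply A.inj
      rw [A.rho_pD, hA, map_mul, ha', hb', ← hba]
      ext x
      simp only [Module.End.mul_apply, LinearMap.comp_apply, vw T h]
    · apply B.inj
      rw [B.rho_pD, hB, map_mul, ← hab]
      ext y
      rw [Module.End.mul_apply, rhoF_apply, rhoF_apply, ha', hb']
      simp only [LinearMap.comp_apply, vw T h, wv T h]
  · intro hS
    have _ := A.semisimple
    obtain ⟨a, b, hab, hba⟩ := idem_equiv (A.L.pD_self D) (B.L.pD_self D) hS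
    refine ⟨T.act v ∘ₗ rhoE T X b, rhoE T X a ∘ₗ T.act w,
      IsAlg.comp T (isAlg_act T v) (rhoE_alg T b), IsAlg.comp T (rhoE_alg T a) (isAlg_act T w),
      ?_, ?_⟩
    · rw [← A.rho_pD, hA, ← hab, map_mul]
      ext x
      simp only [Module.End.mul_apply, LinearMap.comp_apply, wv T h]
    · rw [← B.rho_pD, hB, ← hba, map_mul]
      ext y
      rw [Module.End.mul_apply, rhoF_apply, rhoF_apply]
      simp only [LinearMap.comp_apply, wv T h]

include h in
/-- All the relations between the multiplicities. -/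
theorem relations' (hBX : T.ConjB X) (hBY : T.ConjB Y) :
    ∃ (S : Type) (a b : S → ℕ → ℚ),
    (∀ m, m ≤ 2 * n → (SameAlg T X Y (fun j => j = m) ↔ ∀ s, a s m = b s m)) ∧
    (∀ s, ∑ j ∈ (Finset.range n).filter (fun j => (n - j) % 4 = 2), a s j =
      ∑ j ∈ (Finset.range n).filter (fun j => (n - j) % 4 = 2), b s j) ∧
    (∀ s, a s n + 2 * ∑ j ∈ (Finset.range n).filter (fun j => (n - j) % 4 = 0), a s j =
      b s n + 2 * ∑ j ∈ (Finset.range n).filter (fun j => (n - j) % 4 = 0), b s j) ∧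
    (∀ s, ∑ j ∈ (Finset.range n).filter (fun j => (n - j) % 2 = 1), a s j =
      ∑ j ∈ (Finset.range n).filter (fun j => (n - j) % 2 = 1), b s j) ∧
    (∀ s j, j ≤ n → a s (n + j) = a s (n - j) ∧ b s (n + j) = b s (n - j)) := by
  obtain ⟨A, hA⟩ := exists_actM T hBX
  obtain ⟨B, hB⟩ := exists_actN T h hBY
  have hΦ : ∀ a x, (fm T h).φ (A.ρ a x) = B.ρ a ((fm T h).φ x) := by
    intro a x
    rw [hA, hB, fm_apply, fm_apply, rhoF_apply]
    simp only [LinearMap.comp_apply, wv T h]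
  refine ⟨Submodule (Ealg T X) (Ealg T X), fun S m => tS S (A.L.p m), fun S m => tS S (B.L.p m),
    ?_, ?_, ?_, ?_, ?_⟩
  · intro m hm
    rw [same_iff' T h A B hA hB (fun j => j = m)]
    refine forall_congr' fun S => ?_
    have e : (Finset.range (2 * n + 1)).filter (fun j => j = m) = {m} := by
      ext j
      simp only [Finset.mem_filter, Finset.mem_range, Finset.mem_singleton]
      omega
    rw [t_pD, t_pD, e, Finset.sum_singleton, Finset.sum_singleton]
  · exact fun S => core1 A B (fm T h) hΦ S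
  · exact fun S => core2 A B (fm T h) hΦ S
  · exact fun S => core3 A B (fm T h) hΦ S
  · exact fun S j hj => ⟨A.L.t_sym (tS S) (tS_mul S) hj, B.L.t_sym (tS S) (tS_mul S) hj⟩

end transport

end Pool.Agent.N174.OC
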