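import Pool.Agent.R941.OH.Main
import Mathlib.CategoryTheory.Linear.Basic

/-!
# Correspondences and Hodge theory: definitions
-/

open CategoryTheory

set_option autoImplicit false

universe u v

namespace Pool.Agent.N174.OC

open Pool.Agent.W539.DI Pool.Agent.R941.OH

/-- Algebraic correspondences of smooth projective complex varieties of dimension `n`.

The objects of `𝒪` are smooth projective complex varieties of dimension `n` (all of them, or just
the two varieties `X` and `Y`), and `X ⟶ Y` is the Chow group of cycles of all codimensions on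
`X × Y` with rational coefficients, with the composition of correspondences; `𝟙 X` is the class of
the diagonal. The part `gr X Y i` consists of the cycles of codimension `n + i`, the correspondences
of degree `i`. -/
structure Cor (𝒪 : Type u) [Category.{v} 𝒪] [Preadditive 𝒪] [Linear ℚ 𝒪] where
  /-- the correspondences of degree `i` -/
  gr : ∀ X Y : 𝒪, ℤ → Submodule ℚ (X ⟶ Y)
  isInternal : ∀ X Y : 𝒪, DirectSum.IsInternal (gr X Y)
  id_mem : ∀ X : 𝒪, 𝟙 X ∈ gr X X 0
  comp_mem : ∀ {X Y Z : 𝒪} {i j : ℤ} {Γ : X ⟶ Y} {Δ : Y ⟶ Z}, Γ ∈ gr X Y i → Δ ∈ gr Y Z j →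
    Γ ≫ Δ ∈ gr X Z (i + j)

/-- The action of correspondences on cohomology: the cohomology ring `K X` with its Hodge theory
and the rational structure `r X` (see `KRing` and `RatStr`; `(K X).ω` is the class of an ample
divisor and `(K X).c` the first Chern class), and the action `act Γ` of the correspondence `Γ` on
cohomology. -/
structure CorAct (𝒪 : Type u) [Category.{v} 𝒪] [Preadditive 𝒪] [Linear ℚ 𝒪] (n : ℕ) extends
    Cor 𝒪 where
  /-- the cohomology of `X` -/
  K : 𝒪 → KRing n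
  /-- the rational cohomology of `X` -/
  r : ∀ X : 𝒪, RatStr (K X)
  /-- the action of a correspondence on cohomology -/
  act : ∀ {X Y : 𝒪}, (X ⟶ Y) →+ ((K X).R →ₗ[ℂ] (K Y).R)
  act_id : ∀ X : 𝒪, act (𝟙 X) = LinearMap.id
  act_comp : ∀ {X Y Z : 𝒪} (Γ : X ⟶ Y) (Δ : Y ⟶ Z), act (Γ ≫ Δ) = act Δ ∘ₗ act Γ
  /-- a correspondence of degree `i` maps classes of type `(p, q)` to classes of type
  `(p + i, q + i)` -/
  act_mem : ∀ {X Y : 𝒪} {i : ℤ} {Γ : X ⟶ Y}, Γ ∈ gr X Y i → ∀ (p q : ℤ) (x : (K X).R),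
    x ∈ (K X).H (p, q) → act Γ x ∈ (K Y).H (p + i, q + i)
  /-- cycle classes are rational -/
  act_rat : ∀ {X Y : 𝒪} (Γ : X ⟶ Y), RatOp (r X) (r Y) (act Γ)

/-- Further data: the transpose `tp`; the push-forwards `om X` and `ch X` to the diagonal of `X` of
the ample divisor and of the first Chern class; a correspondence `pt X Y`, the class of `{x} × Y`
for a point `x` of `X`. -/
structure CorTheory (𝒪 : Type u) [Category.{v} 𝒪] [Preadditive 𝒪] [Linear ℚ 𝒪] (n : ℕ) extends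
    CorAct 𝒪 n where
  /-- the transpose -/
  tp : ∀ {X Y : 𝒪}, (X ⟶ Y) → (Y ⟶ X)
  act_tp : ∀ {X Y : 𝒪} (Γ : X ⟶ Y) (x : (K X).R) (y : (K Y).R),
    (K X).tr (x * act (tp Γ) y) = (K Y).tr (act Γ x * y)
  om : ∀ X : 𝒪, X ⟶ X
  act_om : ∀ (X : 𝒪) (x : (K X).R), act (om X) x = (K X).ω * x
  ch : ∀ X : 𝒪, X ⟶ X
  act_ch : ∀ (X : 𝒪) (x : (K X).R), act (ch X) x = (K X).c * x
  pt : ∀ X Y : 𝒪, X ⟶ Y
  pt_mem : ∀ X Y : 𝒪, pt X Y ∈ gr X Y 0
  act_pt : ∀ X Y : 𝒪, act (pt X Y) 1 = 1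

variable {𝒪 : Type u} [Category.{v} 𝒪] [Preadditive 𝒪] [Linear ℚ 𝒪] {n : ℕ}

/-- The standard conjecture of Lefschetz type for `X`: for all `k ≤ n` the inverse of the hard
Lefschetz isomorphism `ω ^ k : H^(n-k)(X) → H^(n+k)(X)`, extended by zero, is algebraic. -/
def CorTheory.ConjB (T : CorTheory 𝒪 n) (X : 𝒪) : Prop :=
  ∀ k : ℕ, k ≤ n → ∃ Γ : X ⟶ X, (∀ (p q : ℤ) (y : (T.K X).R), y ∈ (T.K X).H (p + k, q + k) →
      p + q + k = n → T.act Γ y ∈ (T.K X).H (p, q) ∧ (T.K X).ω ^ k * T.act Γ y = y) ∧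
    ∀ (p q : ℤ) (y : (T.K X).R), y ∈ (T.K X).H (p, q) → p + q ≠ n + k → T.act Γ y = 0

/-- The mixed classes `v` on `X × Y` and `w` on `Y × X` are inverse to each other, and `v` respects
the (generalised) Mukai pairings. For example `v = ch(E) √td(X × Y)` for the kernel `E` of an
equivalence of derived categories (Mukai, Orlov, Căldăraru), `w` the class of the kernel of its
inverse. -/
structure CorTheory.IsDerivedPair (T : CorTheory 𝒪 n) {X Y : 𝒪} (v : X ⟶ Y) (w : Y ⟶ X) :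
    Prop where
  left : v ≫ w = 𝟙 X
  right : w ≫ v = 𝟙 Y
  isom : ∀ x y : (T.K X).R, (T.K Y).mukai (T.act v x) (T.act v y) = (T.K X).mukai x y

/-- `H^m(X)` and `H^m(Y)` are isomorphic by algebraic cycles: there are correspondences of degree
zero which act as inverse isomorphisms. (If the Künneth projectors of `X` and `Y` are algebraic, the
homological motives `h^m(X)` and `h^m(Y)` are isomorphic.) -/
def CorTheory.Iso (T : CorTheory 𝒪 n) (X Y : 𝒪) (m : ℕ) : Prop :=
  ∃ Z ∈ T.gr X Y 0, ∃ Z' ∈ T.gr Y X 0,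
    (∀ (p q : ℤ) (x : (T.K X).R), x ∈ (T.K X).H (p, q) → p + q = m → T.act Z' (T.act Z x) = x) ∧
    ∀ (p q : ℤ) (y : (T.K Y).R), y ∈ (T.K Y).H (p, q) → p + q = m → T.act Z (T.act Z' y) = y

/-- Homologically trivial self-correspondences of `X`, of all degrees, are nilpotent. This holds
if the Chow motive of `X` is finite-dimensional in the sense of Kimura and O'Sullivan. -/
def CorTheory.HomNilpotent (T : CorTheory 𝒪 n) (X : 𝒪) : Prop :=
  ∀ z : End X, T.act z = 0 → IsNilpotent z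

/-- The homological motives of `X` and `Y` are isomorphic: there are correspondences of degree zero
whose compositions act as the identity on cohomology. -/
def CorTheory.HomIso (T : CorTheory 𝒪 n) (X Y : 𝒪) : Prop :=
  ∃ Z ∈ T.gr X Y 0, ∃ Z' ∈ T.gr Y X 0, T.act (Z ≫ Z') = LinearMap.id ∧
    T.act (Z' ≫ Z) = LinearMap.id

/-- The Chow motives of `X` and `Y` are isomorphic. -/
def CorTheory.ChowIso (T : CorTheory 𝒪 n) (X Y : 𝒪) : Prop :=
  ∃ Z ∈ T.gr X Y 0, ∃ Z' ∈ T.gr Y X 0, Z ≫ Z' = 𝟙 X ∧ Z' ≫ Z = 𝟙 Y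

end Pool.Agent.N174.OC
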