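import Pool.Agent.N174.OC.Alg
import Pool.Agent.Y107.Grad

/-!
# Isomorphisms by algebraic cycles
-/

open CategoryTheory

set_option autoImplicit false

universe u v

namespace Pool.Agent.N174.OC

open Pool.Agent.W539.DI Pool.Agent.R941.OH Pool.Agent.Y107

variable {𝒪 : Type u} [Category.{v} 𝒪] [Preadditive 𝒪] [Linear ℚ 𝒪] {n : ℕ}
  (T : CorTheory 𝒪 n) {X Y : 𝒪}

/-- The component of degree zero. -/
noncomputable def c0 (Γ : X ⟶ Y) : X ⟶ Y := cmp (T.isInternal X Y) 0 Γ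

lemma c0_mem (Γ : X ⟶ Y) : c0 T Γ ∈ T.gr X Y 0 := cmp_mem _ _ _

/-- Only the component of degree zero matters. -/
lemma act_c0 (Γ : X ⟶ Y) {m : ℕ} {p q : ℤ} {x : (T.K X).R} (hx : x ∈ (T.K X).H (p, q))
    (hm : p + q = m) : T.act (c0 T Γ) x = dg (T.K Y) m (T.act Γ x) := by
  have hΓ : Γ ∈ ⨆ i, T.gr X Y i := by
    rw [(T.isInternal X Y).submodule_iSup_eq_top]
    exact Submodule.mem_top
  refine Submodule.iSup_induction (T.gr X Y)
    (motive := fun Γ => T.act (c0 T Γ) x = dg (T.K Y) m (T.act Γ x)) hΓ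
    (fun i Δ hΔ => ?_) ?_ (fun Δ Δ' h1 h2 => ?_)
  · have h1 := T.act_mem hΔ p q x hx
    rw [dg_of (T.K Y) h1]
    by_cases hi : i = 0
    · subst hi
      rw [if_pos (by omega)]
      unfold c0
      rw [cmp_of_mem _ hΔ]
    · rw [if_neg (by omega)]
      unfold c0
      rw [cmp_of_ne _ hΔ hi, map_zero, LinearMap.zero_apply]
  · unfold c0
    rw [map_zero, map_zero, LinearMap.zero_apply, map_zero]
  · unfold c0 at *
    rw [map_add, map_add, map_add, LinearMap.add_apply, LinearMap.add_apply, map_add, h1, h2]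

lemma proj_single (K : KRing n) (m : ℕ) : proj K (fun j => j = m) = dg K m := by
  classical
  refine hom_ext K fun p q x hx => ?_
  by_cases hne : x = 0
  · rw [hne, map_zero, map_zero]
  have hr : ¬ (p < 0 ∨ q < 0 ∨ (n : ℤ) < p ∨ (n : ℤ) < q) := fun h => hne (zero_of K h hx)
  obtain ⟨j, hj⟩ : ∃ j : ℕ, p + q = j := ⟨(p + q).toNat, by omega⟩
  rw [proj_of K _ hj hx, dg_of K hx]
  by_cases h0 : j = m
  · rw [if_pos h0, if_pos (by rw [hj, h0])]
  · rw [if_neg h0, if_neg (by omega)]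

lemma dg_idem (K : KRing n) (m : ℕ) (x : K.R) : dg K m (dg K m x) = dg K m x := by
  rw [← Module.End.mul_apply, dg_dg, if_pos rfl]

theorem iso_of_sameAlg {m : ℕ} (h : SameAlg T X Y (fun j => j = m)) : T.Iso X Y m := by
  obtain ⟨_, _, ⟨Γ, rfl⟩, ⟨Δ, rfl⟩, hvu, huv⟩ := h
  rw [proj_single] at hvu huv
  have hvu' : ∀ x, T.act Δ (T.act Γ x) = dg (T.K X) m x := fun x =>
    congrArg (fun f : (T.K X).R →ₗ[ℂ] (T.K X).R => f x) hvu
  have huv' : ∀ y, T.act Γ (T.act Δ y) = dg (T.K Y) m y := fun y =>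
    congrArg (fun f : (T.K Y).R →ₗ[ℂ] (T.K Y).R => f y) huv
  refine ⟨c0 T Γ, c0_mem T Γ, c0 T Δ, c0_mem T Δ, fun p q x hx hm => ?_, fun p q y hy hm => ?_⟩
  · have h1 := T.act_mem (c0_mem T Γ) p q x hx
    rw [act_c0 T Δ h1 (by rw [add_zero, add_zero, hm]), act_c0 T Γ hx hm, ← huv', hvu',
      hvu', dg_idem, dg_idem, dg_of (T.K X) hx, if_pos hm]
  · have h1 := T.act_mem (c0_mem T Δ) p q y hy
    rw [act_c0 T Γ h1 (by rw [add_zero, add_zero, hm]), act_c0 T Δ hy hm, ← hvu', huv',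
      huv', dg_idem, dg_idem, dg_of (T.K Y) hy, if_pos hm]

theorem sameAlg_of_iso (hBX : T.ConjB X) (hBY : T.ConjB Y) {m : ℕ} (h : T.Iso X Y m) :
    SameAlg T X Y (fun j => j = m) := by
  obtain ⟨Z, hZ, Z', hZ', h1, h2⟩ := h
  refine ⟨T.act Z ∘ₗ dg (T.K X) m, T.act Z' ∘ₗ dg (T.K Y) m,
    IsAlg.comp T (isAlg_act T Z) (isAlg_dg T hBX m),
    IsAlg.comp T (isAlg_act T Z') (isAlg_dg T hBY m), ?_, ?_⟩
  · rw [proj_single]
    refine hom_ext (T.K X) fun p q x hx => ?_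
    simp only [LinearMap.comp_apply]
    rw [dg_of (T.K X) hx]
    split_ifs with hm
    · have h3 := T.act_mem hZ p q x hx
      rw [dg_of (T.K Y) h3, if_pos (by rw [add_zero, add_zero]; exact hm), h1 p q x hx hm]
    · rw [map_zero, map_zero, map_zero]
  · rw [proj_single]
    refine hom_ext (T.K Y) fun p q x hx => ?_
    simp only [LinearMap.comp_apply]
    rw [dg_of (T.K Y) hx]
    split_ifs with hm
    · have h3 := T.act_mem hZ' p q x hx
      rw [dg_of (T.K X) h3, if_pos (by rw [add_zero, add_zero]; exact hm), h2 p q x hx hm]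
    · rw [map_zero, map_zero, map_zero]

/-- Degree zero. -/
theorem iso_zero : T.Iso X Y 0 := by
  have key : ∀ {X Y : 𝒪} (p q : ℤ) (x : (T.K X).R), x ∈ (T.K X).H (p, q) → p + q = (0 : ℕ) →
      T.act (T.pt Y X) (T.act (T.pt X Y) x) = x := by
    intro X Y p q x hx hm
    obtain ⟨f, hf⟩ := exists_coef (T.K X)
    have h1 := hf x
    rw [dg_of (T.K X) hx, if_pos hm] at h1
    rw [h1, map_smul, map_smul, T.act_pt, T.act_pt]
  exact ⟨T.pt X Y, T.pt_mem X Y, T.pt Y X, T.pt_mem Y X, key, key⟩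

lemma solve {s : Finset ℕ} {a b : ℕ → ℚ} {m : ℕ} (hm : m ∈ s)
    (h : ∑ j ∈ s, a j = ∑ j ∈ s, b j) (h' : ∀ j ∈ s, j ≠ m → a j = b j) : a m = b m := by
  rw [← Finset.add_sum_erase _ _ hm, ← Finset.add_sum_erase s b hm,
    Finset.sum_congr rfl (fun j hj => h' j (Finset.mem_of_mem_erase hj)
      (Finset.ne_of_mem_erase hj))] at h
  exact add_right_cancel h

theorem low (hBX : T.ConjB X) (hBY : T.ConjB Y) {v : X ⟶ Y} {w : Y ⟶ X}
    (h : T.IsDerivedPair v w) :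
    (1 ≤ n → (∀ j, 0 < j → j < n - 1 → (n - j) % 2 = 1 → T.Iso X Y j) → T.Iso X Y (n - 1)) ∧
    (2 ≤ n → (∀ j, 0 < j → j < n - 2 → (n - j) % 4 = 2 → T.Iso X Y j) → T.Iso X Y (n - 2)) ∧
    ((∀ j, 0 < j → j < n → (n - j) % 4 = 0 → T.Iso X Y j) → T.Iso X Y n) ∧
    ((∀ j, 0 < j → j + 3 ≤ n → T.Iso X Y j) → ∀ m, T.Iso X Y m) := by
  obtain ⟨S, a, b, hI, h1, h2, h3, hS⟩ := relations' T h hBX hBY
  have hiso : ∀ m, m ≤ 2 * n → (T.Iso X Y m ↔ ∀ s, a s m = b s m) := fun m hm =>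
    ⟨fun h => (hI m hm).1 (sameAlg_of_iso T hBX hBY h),
      fun h => iso_of_sameAlg T ((hI m hm).2 h)⟩
  have h0 : ∀ s, a s 0 = b s 0 := (hiso 0 (by omega)).1 (iso_zero T)
  have hj : ∀ {P : ℕ → Prop}, (∀ j, 0 < j → j < n → P j → T.Iso X Y j) →
      ∀ j, j < n → P j → ∀ s, a s j = b s j := by
    intro P hP j hjn hPj s
    rcases Nat.eq_zero_or_pos j with hj0 | hj0
    · rw [hj0]; exact h0 s
    · exact (hiso j (by omega)).1 (hP j hj0 hjn hPj) s
  have R3 : 1 ≤ n → (∀ j, 0 < j → j < n - 1 → (n - j) % 2 = 1 → T.Iso X Y j) →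
      T.Iso X Y (n - 1) := by
    intro hn hP
    rw [hiso _ (by omega)]
    intro s
    refine solve (s := (Finset.range n).filter (fun j => (n - j) % 2 = 1)) ?_ (h3 s) ?_
    · rw [Finset.mem_filter, Finset.mem_range]; omega
    · intro j hjs hne
      rw [Finset.mem_filter, Finset.mem_range] at hjs
      exact hj (P := fun j => j < n - 1 ∧ (n - j) % 2 = 1) (fun j h0 _ hp => hP j h0 hp.1 hp.2) j
        hjs.1 ⟨by omega, hjs.2⟩ s
  have R1 : 2 ≤ n → (∀ j, 0 < j → j < n - 2 → (n - j) % 4 = 2 → T.Iso X Y j) →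
      T.Iso X Y (n - 2) := by
    intro hn hP
    rw [hiso _ (by omega)]
    intro s
    refine solve (s := (Finset.range n).filter (fun j => (n - j) % 4 = 2)) ?_ (h1 s) ?_
    · rw [Finset.mem_filter, Finset.mem_range]; omega
    · intro j hjs hne
      rw [Finset.mem_filter, Finset.mem_range] at hjs
      exact hj (P := fun j => j < n - 2 ∧ (n - j) % 4 = 2) (fun j h0 _ hp => hP j h0 hp.1 hp.2) j
        hjs.1 ⟨by omega, hjs.2⟩ s
  have R2 : (∀ j, 0 < j → j < n → (n - j) % 4 = 0 → T.Iso X Y j) → T.Iso X Y n := by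
    intro hP
    rw [hiso _ (by omega)]
    intro s
    have h5 := h2 s
    rw [Finset.sum_congr rfl (fun j hjs => by
      rw [Finset.mem_filter, Finset.mem_range] at hjs
      exact hj (P := fun j => (n - j) % 4 = 0) hP j hjs.1 hjs.2 s :
        ∀ j ∈ (Finset.range n).filter (fun j => (n - j) % 4 = 0), a s j = b s j)] at h5
    linarith
  refine ⟨R3, R1, R2, fun hP => ?_⟩
  have q2 : 2 ≤ n → T.Iso X Y (n - 2) := fun hn => R1 hn fun j h0 hjn _ => hP j h0 (by omega)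
  have q1 : 1 ≤ n → T.Iso X Y (n - 1) := fun hn => R3 hn fun j h0 hjn hp => hP j h0 (by omega)
  have q0 : T.Iso X Y n := R2 fun j h0 hjn hp => hP j h0 (by omega)
  have ql : ∀ m, m ≤ n → T.Iso X Y m := by
    intro m hm
    rcases Nat.eq_zero_or_pos m with h0 | h0
    · rw [h0]; exact iso_zero T
    by_cases h6 : m + 3 ≤ n
    · exact hP m h0 h6
    · have h7 : m = n ∨ m = n - 1 ∨ m = n - 2 := by omega
      rcases h7 with h7 | h7 | h7
      · rw [h7]; exact q0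
      · rw [h7]; exact q1 (by omega)
      · rcases Nat.lt_or_ge n 2 with h8 | h8
        · omega
        · rw [h7]; exact q2 h8
  intro m
  rcases Nat.le_total m n with hm | hm
  · exact ql m hm
  obtain ⟨j, rfl⟩ := Nat.exists_eq_add_of_le hm
  rcases Nat.lt_or_ge n j with hjn | hjn
  · refine ⟨0, Submodule.zero_mem _, 0, Submodule.zero_mem _, fun p q x hx hpq => ?_,
      fun p q x hx hpq => ?_⟩
    · rw [zero_of (T.K X) (by push_cast at hpq; omega) hx]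
      simp
    · rw [zero_of (T.K Y) (by push_cast at hpq; omega) hx]
      simp
  · rw [hiso _ (by omega)]
    intro s
    rw [(hS s j hjn).1, (hS s j hjn).2]
    exact (hiso (n - j) (by omega)).1 (ql (n - j) (by omega)) s

/-! ### Isomorphisms of motives -/

/-- The Künneth projectors. -/
lemma exists_proj (hB : T.ConjB X) (m : ℕ) : ∃ P ∈ T.gr X X 0, T.act P = dg (T.K X) m := by
  obtain ⟨Γ, hΓ⟩ := isAlg_dg T hB m
  refine ⟨c0 T Γ, c0_mem T Γ, ?_⟩
  refine hom_ext (T.K X) fun p q x hx => ?_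
  by_cases hne : x = 0
  · rw [hne, map_zero, map_zero]
  have hr : ¬ (p < 0 ∨ q < 0 ∨ (n : ℤ) < p ∨ (n : ℤ) < q) := fun h => hne (zero_of (T.K X) h hx)
  obtain ⟨j, hj⟩ : ∃ j : ℕ, p + q = j := ⟨(p + q).toNat, by omega⟩
  rw [act_c0 T Γ hx hj, hΓ, dg_of (T.K X) hx]
  split_ifs with h1
  · rw [dg_of (T.K X) hx, if_pos hj]
  · rw [map_zero]

lemma glue (hB : T.ConjB X) (Z : ℕ → (X ⟶ Y)) (hZ : ∀ m, Z m ∈ T.gr X Y 0) :
    ∃ Z' ∈ T.gr X Y 0, ∀ (j : ℕ) (p q : ℤ) (x : (T.K X).R), x ∈ (T.K X).H (p, q) → p + q = j →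
      T.act Z' x = T.act (Z j) x := by
  choose P hP h1 using exists_proj T hB
  refine ⟨∑ m ∈ Finset.range (2 * n + 1), P m ≫ Z m, ?_, fun j p q x hx hpq => ?_⟩
  · refine Submodule.sum_mem _ fun m _ => ?_
    have := T.comp_mem (hP m) (hZ m)
    rwa [add_zero] at this
  · by_cases hne : x = 0
    · rw [hne, map_zero, map_zero]
    have hr : ¬ (p < 0 ∨ q < 0 ∨ (n : ℤ) < p ∨ (n : ℤ) < q) := fun h =>
      hne (zero_of (T.K X) h hx)
    rw [map_sum, LinearMap.sum_apply, Finset.sum_eq_single_of_mem j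
      (Finset.mem_range.2 (by omega))]
    · rw [T.act_comp, LinearMap.comp_apply, h1, dg_of (T.K X) hx, if_pos hpq]
    · intro m _ hm
      rw [T.act_comp, LinearMap.comp_apply, h1, dg_of (T.K X) hx, if_neg (by omega), map_zero]

/-- The subring of correspondences of degree zero. -/
def deg0 (X : 𝒪) : Subring (End X) where
  carrier := {z | z ∈ T.gr X X 0}
  mul_mem' := fun {a b} ha hb => by
    have := T.comp_mem (X := X) (Y := X) (Z := X) (i := 0) (j := 0) (Γ := b) (Δ := a) hb ha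
    rwa [add_zero] at this
  one_mem' := T.id_mem X
  add_mem' := fun {a b} ha hb => Submodule.add_mem _ ha hb
  zero_mem' := Submodule.zero_mem _
  neg_mem' := fun {a} ha => Submodule.neg_mem _ ha

/-- Units of degree zero. -/
lemma exists_inv {a : End X} (ha : a ∈ deg0 T X) (hnil : IsNilpotent (a - 1)) :
    ∃ a' ∈ deg0 T X, a' * a = 1 ∧ a * a' = 1 := by
  set β : deg0 T X := ⟨a, ha⟩ with hβ
  have h1 : IsNilpotent (β - 1) := by
    obtain ⟨n, hn⟩ := hnil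
    refine ⟨n, Subtype.ext ?_⟩
    exact hn
  obtain ⟨U, hU⟩ := h1.isUnit_add_one
  rw [sub_add_cancel] at hU
  refine ⟨((↑U⁻¹ : deg0 T X) : End X), (↑U⁻¹ : deg0 T X).2, ?_, ?_⟩
  · have h3 : (↑U⁻¹ : deg0 T X) * β = 1 := by rw [← hU, Units.inv_mul]
    exact congrArg Subtype.val h3
  · have h3 : β * (↑U⁻¹ : deg0 T X) = 1 := by rw [← hU, Units.mul_inv]
    exact congrArg Subtype.val h3

omit [Linear ℚ 𝒪] in
lemma eq_zero_of_idem_nil {q : End X} (hq : q * q = q) (hn : IsNilpotent q) : q = 0 := by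
  obtain ⟨n, hn⟩ := hn
  have h : ∀ m : ℕ, q ^ (m + 1) = q := by
    intro m
    induction m with
    | zero => rw [zero_add, pow_one]
    | succ m ih => rw [pow_succ, ih, hq]
  rw [← h n, pow_succ, hn, zero_mul]

/-- Nilpotence for `X` makes the component of degree zero an isomorphism. -/
theorem iso_of_nil {v : X ⟶ Y} {w : Y ⟶ X} {z : X ⟶ Y} {z' : Y ⟶ X} (hz : z ∈ T.gr X Y 0)
    (hz' : z' ∈ T.gr Y X 0) (hwv : w ≫ v = 𝟙 Y) (h1 : T.act (z ≫ z') = LinearMap.id)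
    (h2 : T.act (z' ≫ z) = LinearMap.id) (hnil : T.HomNilpotent X) :
    ∃ a' ∈ T.gr X X 0, (z ≫ z') ≫ a' = 𝟙 X ∧ a' ≫ z ≫ z' = 𝟙 X ∧ (z' ≫ a') ≫ z = 𝟙 Y := by
  have ha : z ≫ z' ∈ T.gr X X 0 := by
    have := T.comp_mem hz hz'
    rwa [add_zero] at this
  let a : End X := z ≫ z'
  have hnil0 : IsNilpotent (a - 1) := by
    refine hnil _ ?_
    have h3 : T.act (z ≫ z' - 𝟙 X) = 0 := by rw [map_sub, h1, T.act_id, sub_self]
    exact h3
  obtain ⟨a', ha', h3, h4⟩ := exists_inv T (X := X) (a := a) ha hnil0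
  replace h3 : (z ≫ z') ≫ a' = 𝟙 X := h3
  replace h4 : a' ≫ z ≫ z' = 𝟙 X := h4
  refine ⟨a', ha', h3, h4, ?_⟩
  have hcla : T.act a' = LinearMap.id := by
    have h5 := congrArg T.act h3
    rw [T.act_comp, h1, T.act_id] at h5
    exact h5
  set p : Y ⟶ Y := (z' ≫ a') ≫ z with hp
  have hclp : T.act p = LinearMap.id := by
    rw [hp, T.act_comp, T.act_comp, hcla, LinearMap.id_comp, ← T.act_comp, h2]
  have hpp : p ≫ p = p := by
    have e1 : z ≫ z' ≫ a' = 𝟙 X := by rw [← Category.assoc, h3]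
    rw [hp]
    simp only [Category.assoc]
    rw [reassoc_of% e1]
  set q : Y ⟶ Y := 𝟙 Y - p with hq
  have hclq : T.act q = 0 := by rw [hq, map_sub, T.act_id, hclp, sub_self]
  have hqq : q ≫ q = q := by
    rw [hq]
    simp only [Preadditive.sub_comp, Preadditive.comp_sub, Category.id_comp, Category.comp_id, hpp]
    abel
  set qX : X ⟶ X := v ≫ q ≫ w with hqX
  have hclqX : T.act qX = 0 := by
    rw [hqX, T.act_comp, T.act_comp, hclq, LinearMap.comp_zero, LinearMap.zero_comp]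
  have hqXX : qX ≫ qX = qX := by
    rw [hqX]
    simp only [Category.assoc]
    rw [reassoc_of% hwv, reassoc_of% hqq]
  have h0 : qX = 0 := eq_zero_of_idem_nil (X := X) (q := qX) hqXX (hnil qX hclqX)
  have hq0 : q = w ≫ qX ≫ v := by
    rw [hqX]
    simp only [Category.assoc, hwv, Category.comp_id]
    rw [reassoc_of% hwv]
  rw [h0, Limits.zero_comp, Limits.comp_zero] at hq0
  rw [hq, sub_eq_zero] at hq0
  exact hq0.symm

/-- Isomorphisms in all degrees give an isomorphism of motives. -/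
theorem motive (hBX : T.ConjB X) (hBY : T.ConjB Y) (hm : ∀ m, T.Iso X Y m) {v : X ⟶ Y}
    {w : Y ⟶ X} (h : T.IsDerivedPair v w) :
    ∃ Z ∈ T.gr X Y 0, ∃ Z' ∈ T.gr Y X 0, T.act (Z ≫ Z') = LinearMap.id ∧
      T.act (Z' ≫ Z) = LinearMap.id ∧ (T.HomNilpotent X ∨ T.HomNilpotent Y →
        ∃ Z'' ∈ T.gr Y X 0, Z ≫ Z'' = 𝟙 X ∧ Z'' ≫ Z = 𝟙 Y) := by
  choose Zm g1 Zm' g2 k1 k2 using hm
  obtain ⟨Z, hZ, hz⟩ := glue T hBX Zm g1
  obtain ⟨Z', hZ', hz'⟩ := glue T hBY Zm' g2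
  have hcl1 : T.act (Z ≫ Z') = LinearMap.id := by
    refine hom_ext (T.K X) fun p q x hx => ?_
    by_cases hne : x = 0
    · rw [hne, map_zero, map_zero]
    have hr : ¬ (p < 0 ∨ q < 0 ∨ (n : ℤ) < p ∨ (n : ℤ) < q) := fun h =>
      hne (zero_of (T.K X) h hx)
    obtain ⟨j, hj⟩ : ∃ j : ℕ, p + q = j := ⟨(p + q).toNat, by omega⟩
    rw [T.act_comp, LinearMap.comp_apply, hz' j _ _ _ (T.act_mem hZ p q x hx) (by omega),
      hz j p q x hx hj, k1 j p q x hx hj]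
    rfl
  have hcl2 : T.act (Z' ≫ Z) = LinearMap.id := by
    refine hom_ext (T.K Y) fun p q x hx => ?_
    by_cases hne : x = 0
    · rw [hne, map_zero, map_zero]
    have hr : ¬ (p < 0 ∨ q < 0 ∨ (n : ℤ) < p ∨ (n : ℤ) < q) := fun h =>
      hne (zero_of (T.K Y) h hx)
    obtain ⟨j, hj⟩ : ∃ j : ℕ, p + q = j := ⟨(p + q).toNat, by omega⟩
    rw [T.act_comp, LinearMap.comp_apply, hz j _ _ _ (T.act_mem hZ' p q x hx) (by omega),
      hz' j p q x hx hj, k2 j p q x hx hj]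
    rfl
  refine ⟨Z, hZ, Z', hZ', hcl1, hcl2, ?_⟩
  rintro (hK | hK)
  · obtain ⟨a', ha', h3, h4, h5⟩ := iso_of_nil T hZ hZ' h.right hcl1 hcl2 hK
    refine ⟨Z' ≫ a', ?_, ?_, h5⟩
    · have := T.comp_mem hZ' ha'
      rwa [add_zero] at this
    · rw [← Category.assoc, h3]
  · obtain ⟨b', hb', h3, h4, h5⟩ := iso_of_nil T hZ' hZ h.left hcl2 hcl1 hK
    refine ⟨b' ≫ Z', ?_, ?_, ?_⟩
    · have := T.comp_mem hb' hZ'
      rwa [add_zero] at this
    · rw [← Category.assoc, h5]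
    · rw [Category.assoc, h4]

end Pool.Agent.N174.OC
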