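import Pool.Agent.N174.OC.Defs

/-!
# Algebraic operators
-/

open CategoryTheory

set_option autoImplicit false

universe u v

namespace Pool.Agent.N174.OC

open Pool.Agent.W539.DI Pool.Agent.R941.OH

variable {𝒪 : Type u} [Category.{v} 𝒪] [Preadditive 𝒪] [Linear ℚ 𝒪] {n : ℕ}
  (T : CorTheory 𝒪 n) {X Y Z : 𝒪}

lemma act_smul (q : ℚ) (Γ : X ⟶ Y) : T.act (q • Γ) = (q : ℂ) • T.act Γ := by
  have := map_ratCast_smul (T.act (X := X) (Y := Y)) ℚ ℂ q Γ
  simpa using this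

/-- The transpose of an algebraic operator is algebraic. -/
lemma tp_act (Γ : X ⟶ X) : R941.OH.tp (T.K X) (T.act Γ) = T.act (T.tp Γ) := by
  ext y
  rw [← sub_eq_zero]
  apply nd_right (T.K X)
  intro x
  rw [mul_sub, map_sub, tp_spec, T.act_tp, sub_self]

lemma real_act (Γ : X ⟶ Y) (x : (T.K X).R) :
    T.act Γ ((T.K X).bar x) = (T.K Y).bar (T.act Γ x) := by
  conv_lhs => rw [← (T.r X).e.sum_repr x]
  conv_rhs => rw [← (T.r X).e.sum_repr x]
  rw [map_sum, map_sum, map_sum, map_sum]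
  refine Finset.sum_congr rfl fun i _ => ?_
  rw [LinearMap.map_smulₛₗ (T.K X).bar, (T.r X).real, map_smul (T.act Γ), map_smul (T.act Γ),
    LinearMap.map_smulₛₗ (T.K Y).bar, rat_bar (T.r Y) (T.act_rat Γ _ (rat_e (T.r X) i))]

lemma act_typ (Γ : X ⟶ Y) : TypeOp (T.act Γ) := by
  intro p q x hx
  have h : ∀ Γ : X ⟶ Y, T.act Γ x ∈ typ (T.K Y) p q := by
    intro Γ
    have hΓ : Γ ∈ ⨆ i, T.gr X Y i := by
      rw [(T.isInternal X Y).submodule_iSup_eq_top]
      exact Submodule.mem_top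
    refine Submodule.iSup_induction (T.gr X Y) (motive := fun Γ => T.act Γ x ∈ typ (T.K Y) p q) hΓ
      (fun i Δ hΔ => ?_) ?_ (fun Δ Δ' h1 h2 => ?_)
    · have h1 := T.act_mem hΔ p q x hx
      exact Submodule.mem_iSup_of_mem i h1
    · rw [map_zero]
      exact Submodule.zero_mem _
    · rw [map_add]
      exact Submodule.add_mem _ h1 h2
  exact h Γ

/-- The cohomological transform. -/
noncomputable def fm {v : X ⟶ Y} {w : Y ⟶ X} (h : T.IsDerivedPair v w) : FM (T.K X) (T.K Y) where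
  φ := LinearEquiv.ofLinearMap (T.act v) (T.act w)
    (by rw [← T.act_comp, h.right, T.act_id]) (by rw [← T.act_comp, h.left, T.act_id])
  real := fun x => real_act T v x
  hodge := by
    intro p q
    apply le_antisymm
    · rintro _ ⟨x, hx, rfl⟩
      exact typeOp_mem (act_typ T v) hx
    · intro y hy
      refine ⟨T.act w y, typeOp_mem (act_typ T w) hy, ?_⟩
      show (T.act v ∘ₗ T.act w) y = y
      rw [← T.act_comp, h.right, T.act_id]
      rfl
  isom := h.isom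

lemma fm_apply {v : X ⟶ Y} {w : Y ⟶ X} (h : T.IsDerivedPair v w) (x : (T.K X).R) :
    (fm T h).φ x = T.act v x := rfl

/-! ### The standard operators -/

/-- `a` is an algebraic operator. -/
def IsAlg {X Y : 𝒪} (a : (T.K X).R →ₗ[ℂ] (T.K Y).R) : Prop := ∃ Γ : X ⟶ Y, T.act Γ = a

lemma isAlg_act (Γ : X ⟶ Y) : IsAlg T (T.act Γ) := ⟨Γ, rfl⟩

lemma IsAlg.comp {a : (T.K X).R →ₗ[ℂ] (T.K Y).R} {b : (T.K Y).R →ₗ[ℂ] (T.K Z).R} (hb : IsAlg T b)
    (ha : IsAlg T a) : IsAlg T (b ∘ₗ a) := by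
  obtain ⟨Γ, rfl⟩ := ha
  obtain ⟨Δ, rfl⟩ := hb
  exact ⟨Γ ≫ Δ, T.act_comp Γ Δ⟩

lemma IsAlg.mul {a b : Module.End ℂ (T.K X).R} (ha : IsAlg T a) (hb : IsAlg T b) :
    IsAlg T (a * b) := IsAlg.comp T ha hb

lemma IsAlg.one : IsAlg T (1 : Module.End ℂ (T.K X).R) := ⟨𝟙 X, T.act_id X⟩

lemma IsAlg.pow {a : Module.End ℂ (T.K X).R} (ha : IsAlg T a) (j : ℕ) : IsAlg T (a ^ j) := by
  induction j with
  | zero => rw [pow_zero]; exact IsAlg.one T
  | succ j ih => rw [pow_succ]; exact IsAlg.mul T ih ha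

lemma IsAlg.add {a b : (T.K X).R →ₗ[ℂ] (T.K Y).R} (ha : IsAlg T a) (hb : IsAlg T b) :
    IsAlg T (a + b) := by
  obtain ⟨Γ, rfl⟩ := ha
  obtain ⟨Δ, rfl⟩ := hb
  exact ⟨Γ + Δ, map_add _ Γ Δ⟩

lemma IsAlg.smul {a : (T.K X).R →ₗ[ℂ] (T.K Y).R} (q : ℚ) (ha : IsAlg T a) :
    IsAlg T ((q : ℂ) • a) := by
  obtain ⟨Γ, rfl⟩ := ha
  exact ⟨q • Γ, act_smul T q Γ⟩

lemma IsAlg.zero : IsAlg T (0 : (T.K X).R →ₗ[ℂ] (T.K Y).R) := ⟨0, map_zero _⟩

lemma IsAlg.sum {ι : Type*} (s : Finset ι) (a : ι → (T.K X).R →ₗ[ℂ] (T.K Y).R)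
    (h : ∀ i ∈ s, IsAlg T (a i)) : IsAlg T (∑ i ∈ s, a i) := by
  classical
  induction s using Finset.induction_on with
  | empty => rw [Finset.sum_empty]; exact IsAlg.zero T
  | insert i s hi ih =>
    rw [Finset.sum_insert hi]
    exact IsAlg.add T (h i (Finset.mem_insert_self _ _))
      (ih fun j hj => h j (Finset.mem_insert_of_mem hj))

lemma isAlg_om : IsAlg T (mu (T.K X) (T.K X).ω) := ⟨T.om X, LinearMap.ext (T.act_om X)⟩

lemma isAlg_c : IsAlg T (mu (T.K X) (T.K X).c) := ⟨T.ch X, LinearMap.ext (T.act_ch X)⟩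

lemma isAlg_kap (hB : T.ConjB X) (j : ℕ) : IsAlg T (kap (T.K X) j) := by
  by_cases hj : j ≤ n
  · obtain ⟨Γ, h1, h2⟩ := hB j hj
    refine ⟨Γ, ?_⟩
    refine hom_ext (T.K X) fun p q y hy => ?_
    by_cases hpq : p + q = n + j
    · have hy' : y ∈ (T.K X).H (p - j + j, q - j + j) := by simpa using hy
      obtain ⟨h3, h4⟩ := h1 (p - j) (q - j) y hy' (by omega)
      have h5 := kap_mem (T.K X) (k := j) (p := p - j) (q := q - j) (by omega) hy'
      have h6 := om_kap (T.K X) (k := j) (p := p - j) (q := q - j) (by omega) hy'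
      rw [← sub_eq_zero]
      refine (T.K X).hl_inj (p - j) (q - j) j (by omega) _ (Submodule.sub_mem _ h3 h5) ?_
      rw [mul_sub, h4]
      have h7 : (T.K X).ω ^ j * kap (T.K X) j y = y := h6
      rw [h7, sub_self]
    · rw [h2 p q y hy hpq]
      have h3 := (kap_spec (T.K X) hj).2.1
      have h4 := congrArg (fun g : Module.End ℂ (T.K X).R => g y) h3
      simp only [Module.End.mul_apply] at h4
      rw [dg_of (T.K X) hy, if_neg (by push_cast; exact hpq), map_zero] at h4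
      exact h4
  · unfold kap
    rw [dif_neg hj]
    exact IsAlg.zero T

lemma isAlg_dg (hB : T.ConjB X) (m : ℕ) : IsAlg T (dg (T.K X) m) := by
  rcases Nat.lt_or_ge (2 * n) m with h | h
  · have : dg (T.K X) m = 0 := by
      refine hom_ext (T.K X) fun p q x hx => ?_
      rw [dg_of (T.K X) hx, LinearMap.zero_apply]
      split_ifs with hpq
      · exact zero_of (T.K X) (by omega) hx
      · rfl
    rw [this]
    exact IsAlg.zero T
  rcases Nat.le_total n m with h1 | h1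
  · obtain ⟨j, rfl⟩ := Nat.exists_eq_add_of_le h1
    have h2 : (lef (T.K X)).o ^ j * (lef (T.K X)).κ j = (lef (T.K X)).p (n + j) :=
      (lef (T.K X)).κ2 j (by omega)
    have h3 : mu (T.K X) (T.K X).ω ^ j * kap (T.K X) j = dg (T.K X) (n + j) := h2
    rw [← h3]
    exact IsAlg.mul T (IsAlg.pow T (isAlg_om T) j) (isAlg_kap T hB j)
  · obtain ⟨j, hj⟩ := Nat.exists_eq_add_of_le h1
    have hj' : m = n - j := by omega
    have hjn : j ≤ n := by omega
    have h2 : (lef (T.K X)).κ j * ((lef (T.K X)).o ^ j * (lef (T.K X)).p (n - j)) =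
        (lef (T.K X)).p (n - j) := (lef (T.K X)).κ1 j hjn
    have h4 : (lef (T.K X)).κ j * (lef (T.K X)).o ^ j = (lef (T.K X)).p (n - j) := by
      calc (lef (T.K X)).κ j * (lef (T.K X)).o ^ j
          = (lef (T.K X)).κ j * (lef (T.K X)).p (n + j) * (lef (T.K X)).o ^ j := by
            rw [(lef (T.K X)).κr j hjn]
        _ = (lef (T.K X)).κ j * ((lef (T.K X)).o ^ j * (lef (T.K X)).p (n - j)) := by
            rw [(lef (T.K X)).o_pow_p, mul_assoc, show n - j + 2 * j = n + j by omega]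
        _ = (lef (T.K X)).p (n - j) := h2
    have h3 : kap (T.K X) j * mu (T.K X) (T.K X).ω ^ j = dg (T.K X) (n - j) := h4
    rw [hj', ← h3]
    exact IsAlg.mul T (isAlg_kap T hB j) (IsAlg.pow T (isAlg_om T) j)

lemma isAlg_jj (hB : T.ConjB X) : IsAlg T (jj (T.K X)) := by
  have h1 : jj (T.K X) = ∑ m ∈ Finset.range (2 * n + 1),
      (((-1 : ℚ) ^ (((m : ℕ) : ℤ) / 2) : ℚ) : ℂ) • dg (T.K X) m := by
    refine hom_ext (T.K X) fun p q x hx => ?_
    by_cases hne : x = 0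
    · rw [hne, map_zero, map_zero]
    have hr : ¬ (p < 0 ∨ q < 0 ∨ (n : ℤ) < p ∨ (n : ℤ) < q) := fun h =>
      hne (zero_of (T.K X) h hx)
    obtain ⟨m, hm⟩ : ∃ m : ℕ, p + q = m := ⟨(p + q).toNat, by omega⟩
    rw [LinearMap.sum_apply, Finset.sum_eq_single m]
    · rw [LinearMap.smul_apply, dg_of (T.K X) hx, if_pos hm]
      unfold jj
      rw [diag_of (T.K X) _ hx]
      simp only [hm]
      push_cast
      rfl
    · intro j _ hj
      rw [LinearMap.smul_apply, dg_of (T.K X) hx, if_neg (by omega), smul_zero]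
    · intro h2
      exact absurd (Finset.mem_range.2 (by omega)) h2
  rw [h1]
  exact IsAlg.sum T _ _ fun m _ => IsAlg.smul T _ (isAlg_dg T hB m)

/-- The adjoint of an algebraic operator for the Mukai form is algebraic. -/
lemma alg_adj (hB : T.ConjB X) {a : Module.End ℂ (T.K X).R} (ha : IsAlg T a) :
    ∃ b : Module.End ℂ (T.K X).R, IsAlg T b ∧ ∀ x y, F (T.K X) (a x) y = F (T.K X) x (b y) := by
  have hr : ∀ b : Module.End ℂ (T.K X).R, IsAlg T b → RatOp (T.r X) (T.r X) b := by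
    rintro _ ⟨Γ, rfl⟩
    exact T.act_rat Γ
  have h1 : IsAlg T (jj (T.K X) * a * jj (T.K X)) :=
    IsAlg.mul T (IsAlg.mul T (isAlg_jj T hB) ha) (isAlg_jj T hB)
  have h2 : IsAlg T (R941.OH.tp (T.K X) (jj (T.K X) * a * jj (T.K X))) := by
    obtain ⟨Γ, hΓ⟩ := h1
    rw [← hΓ, tp_act]
    exact ⟨_, rfl⟩
  have ha' : TypeOp (X := T.K X) a := by
    obtain ⟨Γ, rfl⟩ := ha
    exact act_typ T Γ
  refine ⟨R941.OH.tp (T.K X) (jj (T.K X) * a * jj (T.K X)), h2, fun x y => ?_⟩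
  unfold F
  rw [dual_conj ha', ← tp_spec, bar_op (T.r X) (hr _ h2)]

end Pool.Agent.N174.OC
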