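import Pool.Agent.N174.OC.Trans

/-!
# Correspondences and Hodge theory
-/

open CategoryTheory

set_option autoImplicit false

universe u v

namespace Pool.Agent.N174.OC

open Pool.Agent.W539.DI Pool.Agent.R941.OH

/-- The action of correspondences on cohomology: the cohomology ring `K X` with its Hodge theory
and the rational structure `r X` (see `KRing` and `RatStr`; `(K X).ω` is the class of an ample
divisor and `(K X).c` the first Chern class), and the action `act Γ` of the correspondence `Γ` on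
cohomology. -/
structure CycAct (𝒪 : Type u) [Category.{v} 𝒪] [Preadditive 𝒪] [Linear ℚ 𝒪] (n : ℕ) extends
    Cor 𝒪 where
  /-- the cohomology of `X` -/
  K : 𝒪 → KRing n
  /-- the rational cohomology of `X` -/
  r : ∀ X : 𝒪, RatStr (K X)
  /-- the action of a correspondence on cohomology -/
  act : ∀ {X Y : 𝒪}, (X ⟶ Y) → (K X).R → (K Y).R
  act_add : ∀ {X Y : 𝒪} (Γ Δ : X ⟶ Y) (x : (K X).R), act (Γ + Δ) x = act Γ x + act Δ x
  act_add' : ∀ {X Y : 𝒪} (Γ : X ⟶ Y) (x y : (K X).R), act Γ (x + y) = act Γ x + act Γ y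
  act_smul' : ∀ {X Y : 𝒪} (Γ : X ⟶ Y) (a : ℂ) (x : (K X).R), act Γ (a • x) = a • act Γ x
  act_id : ∀ (X : 𝒪) (x : (K X).R), act (𝟙 X) x = x
  act_comp : ∀ {X Y Z : 𝒪} (Γ : X ⟶ Y) (Δ : Y ⟶ Z) (x : (K X).R),
    act (Γ ≫ Δ) x = act Δ (act Γ x)
  /-- a correspondence of degree `i` maps classes of type `(p, q)` to classes of type
  `(p + i, q + i)` -/
  act_mem : ∀ {X Y : 𝒪} {i : ℤ} {Γ : X ⟶ Y}, Γ ∈ gr X Y i → ∀ (p q : ℤ) (x : (K X).R),
    x ∈ (K X).H (p, q) → act Γ x ∈ (K Y).H (p + i, q + i)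
  /-- cycle classes are rational -/
  act_rat : ∀ {X Y : 𝒪} (Γ : X ⟶ Y) (x : (K X).R), (r X).IsRat x → (r Y).IsRat (act Γ x)

/-- Further data: the transpose `tp`; the push-forwards `om X` and `ch X` to the diagonal of `X` of
the ample divisor and of the first Chern class; a correspondence `pt X Y`, the class of `{x} × Y`
for a point `x` of `X`. -/
structure CycTheory (𝒪 : Type u) [Category.{v} 𝒪] [Preadditive 𝒪] [Linear ℚ 𝒪] (n : ℕ) extends
    CycAct 𝒪 n where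
  /-- the transpose -/
  tp : ∀ {X Y : 𝒪}, (X ⟶ Y) → (Y ⟶ X)
  act_tp : ∀ {X Y : 𝒪} (Γ : X ⟶ Y) (x : (K X).R) (y : (K Y).R),
    (K X).tr (x * act (tp Γ) y) = (K Y).tr (act Γ x * y)
  om : ∀ X : 𝒪, X ⟶ X
  act_om : ∀ (X : 𝒪) (x : (K X).R), act (om X) x = (K X).ω * x
  ch : ∀ X : 𝒪, X ⟶ X
  act_ch : ∀ (X : 𝒪) (x : (K X).R), act (ch X) x = (K X).c * x
  pt : ∀ X Y : 𝒪, X ⟶ Y
  pt_mem : ∀ X Y : 𝒪, pt X Y ∈ gr X Y 0
  act_pt : ∀ X Y : 𝒪, act (pt X Y) 1 = 1

variable {𝒪 : Type u} [Category.{v} 𝒪] [Preadditive 𝒪] [Linear ℚ 𝒪] {n : ℕ}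

/-- The linear form of the data. -/
def CycTheory.lin (T : CycTheory 𝒪 n) : CorTheory 𝒪 n where
  toCor := T.toCor
  K := T.K
  r := T.r
  act := fun {X Y} =>
    { toFun := fun Γ =>
        { toFun := T.act Γ
          map_add' := T.act_add' Γ
          map_smul' := T.act_smul' Γ }
      map_zero' := by
        ext x
        have h := T.act_add (0 : X ⟶ Y) 0 x
        rw [add_zero, left_eq_add] at h
        exact h
      map_add' := fun Γ Δ => LinearMap.ext (T.act_add Γ Δ) }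
  act_id := fun X => LinearMap.ext (T.act_id X)
  act_comp := fun Γ Δ => LinearMap.ext (T.act_comp Γ Δ)
  act_mem := T.act_mem
  act_rat := fun Γ x => T.act_rat Γ x
  tp := T.tp
  act_tp := T.act_tp
  om := T.om
  act_om := T.act_om
  ch := T.ch
  act_ch := T.act_ch
  pt := T.pt
  pt_mem := T.pt_mem
  act_pt := T.act_pt

/-- The standard conjecture of Lefschetz type for `X`: for all `k ≤ n` the inverse of the hard
Lefschetz isomorphism `ω ^ k : H^(n-k)(X) → H^(n+k)(X)`, extended by zero, is algebraic. -/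
def CycTheory.ConjB (T : CycTheory 𝒪 n) (X : 𝒪) : Prop :=
  ∀ k : ℕ, k ≤ n → ∃ Γ : X ⟶ X, (∀ (p q : ℤ) (y : (T.K X).R), y ∈ (T.K X).H (p + k, q + k) →
      p + q + k = n → T.act Γ y ∈ (T.K X).H (p, q) ∧ (T.K X).ω ^ k * T.act Γ y = y) ∧
    ∀ (p q : ℤ) (y : (T.K X).R), y ∈ (T.K X).H (p, q) → p + q ≠ n + k → T.act Γ y = 0

/-- The mixed classes `v` on `X × Y` and `w` on `Y × X` are inverse to each other, and `v` respects
the (generalised) Mukai pairings. For example `v = ch(E) √td(X × Y)` for the kernel `E` of an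
equivalence of derived categories (Mukai, Orlov, Căldăraru), `w` the class of the kernel of its
inverse. -/
structure CycTheory.IsDerivedPair (T : CycTheory 𝒪 n) {X Y : 𝒪} (v : X ⟶ Y) (w : Y ⟶ X) :
    Prop where
  left : v ≫ w = 𝟙 X
  right : w ≫ v = 𝟙 Y
  isom : ∀ x y : (T.K X).R, (T.K Y).mukai (T.act v x) (T.act v y) = (T.K X).mukai x y

/-- `H^m(X)` and `H^m(Y)` are isomorphic by algebraic cycles: there are correspondences of degree
zero which act as inverse isomorphisms. (If the Künneth projectors of `X` and `Y` are algebraic, the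
homological motives `h^m(X)` and `h^m(Y)` are isomorphic.) -/
def CycTheory.Iso (T : CycTheory 𝒪 n) (X Y : 𝒪) (m : ℕ) : Prop :=
  ∃ Z ∈ T.gr X Y 0, ∃ Z' ∈ T.gr Y X 0,
    (∀ (p q : ℤ) (x : (T.K X).R), x ∈ (T.K X).H (p, q) → p + q = m → T.act Z' (T.act Z x) = x) ∧
    ∀ (p q : ℤ) (y : (T.K Y).R), y ∈ (T.K Y).H (p, q) → p + q = m → T.act Z (T.act Z' y) = y

/-- Homologically trivial self-correspondences of `X`, of all degrees, are nilpotent. This holds
if the Chow motive of `X` is finite-dimensional in the sense of Kimura and O'Sullivan. -/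
def CycTheory.HomNilpotent (T : CycTheory 𝒪 n) (X : 𝒪) : Prop :=
  ∀ z : End X, (∀ x : (T.K X).R, T.act z x = 0) → IsNilpotent z

/-- The homological motives of `X` and `Y` are isomorphic: there are correspondences of degree zero
whose compositions act as the identity on cohomology. -/
def CycTheory.HomIso (T : CycTheory 𝒪 n) (X Y : 𝒪) : Prop :=
  ∃ Z ∈ T.gr X Y 0, ∃ Z' ∈ T.gr Y X 0, (∀ x : (T.K X).R, T.act Z' (T.act Z x) = x) ∧
    ∀ y : (T.K Y).R, T.act Z (T.act Z' y) = y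

/-- The Chow motives of `X` and `Y` are isomorphic. -/
def CycTheory.ChowIso (T : CycTheory 𝒪 n) (X Y : 𝒪) : Prop :=
  ∃ Z ∈ T.gr X Y 0, ∃ Z' ∈ T.gr Y X 0, Z ≫ Z' = 𝟙 X ∧ Z' ≫ Z = 𝟙 Y

variable (T : CycTheory 𝒪 n) {X Y : 𝒪}

lemma conjB_lin : T.lin.ConjB X ↔ T.ConjB X := Iff.rfl

lemma iso_lin {m : ℕ} : T.lin.Iso X Y m ↔ T.Iso X Y m := Iff.rfl

lemma pair_lin {v : X ⟶ Y} {w : Y ⟶ X} (h : T.IsDerivedPair v w) : T.lin.IsDerivedPair v w :=
  ⟨h.left, h.right, h.isom⟩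

lemma nil_lin (h : T.HomNilpotent X) : T.lin.HomNilpotent X := fun z hz =>
  h z fun x => congrArg (fun f : (T.K X).R →ₗ[ℂ] (T.K X).R => f x) hz

theorem main (hB : T.ConjB X) {v : X ⟶ Y} {w : Y ⟶ X} (h : T.IsDerivedPair v w) :
    T.ConjB Y ∧
    (1 ≤ n → (∀ j, 0 < j → j < n - 1 → (n - j) % 2 = 1 → T.Iso X Y j) → T.Iso X Y (n - 1)) ∧
    (2 ≤ n → (∀ j, 0 < j → j < n - 2 → (n - j) % 4 = 2 → T.Iso X Y j) → T.Iso X Y (n - 2)) ∧
    ((∀ j, 0 < j → j < n → (n - j) % 4 = 0 → T.Iso X Y j) → T.Iso X Y n) ∧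
    ((∀ j, 0 < j → j + 3 ≤ n → T.Iso X Y j) →
      T.HomIso X Y ∧ (T.HomNilpotent X ∨ T.HomNilpotent Y → T.ChowIso X Y)) := by
  have h' := pair_lin T h
  have hB1 : T.lin.ConjB X := hB
  have hB' := conjB_trans T.lin hB1 h'
  obtain ⟨h1, h2, h3, h4⟩ := low T.lin hB1 hB' h'
  refine ⟨hB', h1, h2, h3, fun hP => ?_⟩
  obtain ⟨Z, hZ, Z', hZ', h5, h6, h7⟩ := motive T.lin hB1 hB' (h4 hP) h'
  refine ⟨⟨Z, hZ, Z', hZ', fun x => ?_, fun y => ?_⟩, fun hK => ⟨Z, hZ, h7 ?_⟩⟩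
  · rw [← T.act_comp]
    exact congrArg (fun f : (T.K X).R →ₗ[ℂ] (T.K X).R => f x) h5
  · rw [← T.act_comp]
    exact congrArg (fun f : (T.K Y).R →ₗ[ℂ] (T.K Y).R => f y) h6
  · exact hK.imp (nil_lin T) (nil_lin T)

end Pool.Agent.N174.OC
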