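import Pool.Agent.N174.OC.Main

/-!
# The standard conjecture of Lefschetz type is a derived invariant
-/

open CategoryTheory

set_option autoImplicit false

universe u v

namespace Pool.Agent.N174.OC

open Pool.Agent.W539.DI Pool.Agent.R941.OH Pool.Agent.Y107

/-- Semisimple rings are regular. -/
lemma exists_regular {E : Type*} [Ring E] [IsSemisimpleRing E] (a : E) :
    ∃ x : E, a * x * a = a := by
  obtain ⟨e, he, h⟩ := IsSemisimpleRing.ideal_eq_span_idempotent (Ideal.span {a})
  have h1 : a ∈ Ideal.span {e} := h ▸ Ideal.mem_span_singleton_self a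
  have h2 : e ∈ Ideal.span {a} := h ▸ Ideal.mem_span_singleton_self e
  rw [Ideal.mem_span_singleton'] at h1 h2
  obtain ⟨r, hr⟩ := h1
  obtain ⟨x, hx⟩ := h2
  refine ⟨x, ?_⟩
  have he' : e * e = e := he
  rw [mul_assoc, hx, ← hr, mul_assoc, he']

section lef

variable {A : Type*} [Ring A] {n : ℕ} (L : Lef A n) (S : Subring A)

lemma p_big {m : ℕ} (h : 2 * n < m) : L.p m = 0 := by
  have h1 : L.p m * ∑ i ∈ Finset.range (2 * n + 1), L.p i = L.p m := by rw [L.sum, mul_one]
  rw [← h1, Finset.mul_sum]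
  refine Finset.sum_eq_zero fun i hi => L.p_ne ?_
  rw [Finset.mem_range] at hi
  omega

lemma kap_eq (θ : A) {k : ℕ} (hk : k ≤ n) (h1 : θ * (L.o ^ k * L.p (n - k)) = L.p (n - k))
    (h2 : L.p (n - k) * θ = θ * L.p (n + k)) : L.κ k = L.p (n - k) * θ := by
  rw [h2, ← L.κ2 k hk]
  conv_rhs => rw [← L.κl k hk, ← mul_assoc (L.o ^ k), ← mul_assoc θ, h1]
  rw [L.κl k hk]

lemma lef_mem (ho : L.o ∈ S) (θ : ℕ → A) (hθ : ∀ k, k ≤ n → θ k ∈ S)
    (h1 : ∀ k, k ≤ n → θ k * (L.o ^ k * L.p (n - k)) = L.p (n - k))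
    (h2 : ∀ k, k ≤ n → L.p (n - k) * θ k = θ k * L.p (n + k)) :
    ∀ k, k ≤ n → L.κ k ∈ S := by
  have key : ∀ i, i < n → L.p i ∈ S ∧ L.p (2 * n - i) ∈ S := by
    intro i
    induction i using Nat.strong_induction_on with
    | _ i ih =>
      intro hi
      set k := n - i with hk
      have hik : n - k = i := by omega
      have hik' : n + k = 2 * n - i := by omega
      set P := 1 - ∑ j ∈ Finset.range i, L.p j with hP
      set Q := 1 - ∑ j ∈ Finset.range i, L.p (2 * n - j) with hQ
      have hPS : P ∈ S := Subring.sub_mem _ (Subring.one_mem _) (Subring.sum_mem _ fun j hj =>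
        (ih j (Finset.mem_range.1 hj) (by have := Finset.mem_range.1 hj; omega)).1)
      have hQS : Q ∈ S := Subring.sub_mem _ (Subring.one_mem _) (Subring.sum_mem _ fun j hj =>
        (ih j (Finset.mem_range.1 hj) (by have := Finset.mem_range.1 hj; omega)).2)
      have hPj : ∀ j, P * L.p j = if j < i then 0 else L.p j := by
        intro j
        rw [hP, sub_mul, one_mul, Finset.sum_mul]
        split_ifs with hj
        · rw [Finset.sum_eq_single_of_mem j (Finset.mem_range.2 hj), L.p_self, sub_self]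
          intro l _ hl
          exact L.p_ne hl
        · rw [Finset.sum_eq_zero, sub_zero]
          intro l hl
          rw [Finset.mem_range] at hl
          exact L.p_ne (by omega)
      have hQj : ∀ m, 2 * n - i < m → Q * L.p m = 0 := by
        intro m hm
        rcases Nat.lt_or_ge (2 * n) m with h3 | h3
        · rw [p_big L h3, mul_zero]
        · rw [hQ, sub_mul, one_mul, Finset.sum_mul,
            Finset.sum_eq_single_of_mem (2 * n - m) (Finset.mem_range.2 (by omega)),
            show 2 * n - (2 * n - m) = m by omega, L.p_self, sub_self]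
          intro l hl hl'
          rw [Finset.mem_range] at hl
          exact L.p_ne (by omega)
      have hQi : Q * L.p (2 * n - i) = L.p (2 * n - i) := by
        rw [hQ, sub_mul, one_mul, Finset.sum_mul, Finset.sum_eq_zero, sub_zero]
        intro l hl
        rw [Finset.mem_range] at hl
        exact L.p_ne (by omega)
      have hu : θ k * (Q * (L.o ^ k * P)) = L.p i := by
        have h3 : (1 : A) = ∑ j ∈ Finset.range (2 * n + 1), L.p j := L.sum.symm
        rw [← mul_one (θ k * (Q * (L.o ^ k * P))), h3, Finset.mul_sum,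
          Finset.sum_eq_single_of_mem i (Finset.mem_range.2 (by omega))]
        · have h4 : θ k * (Q * (L.o ^ k * P)) * L.p i = θ k * (Q * (L.o ^ k * (P * L.p i))) := by
            simp only [mul_assoc]
          rw [h4, hPj, if_neg (lt_irrefl i), L.o_pow_p, ← mul_assoc Q,
            show i + 2 * k = 2 * n - i by omega, hQi, show 2 * n - i = i + 2 * k by omega,
            ← L.o_pow_p]
          have h5 := h1 k (by omega)
          rw [hik] at h5
          exact h5
        · intro j hj hji
          have h4 : θ k * (Q * (L.o ^ k * P)) * L.p j = θ k * (Q * (L.o ^ k * (P * L.p j))) := by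
            simp only [mul_assoc]
          rw [h4, hPj]
          split_ifs with h5
          · simp only [mul_zero]
          · rw [L.o_pow_p, ← mul_assoc Q, hQj _ (by omega), zero_mul, mul_zero]
      have hpi : L.p i ∈ S := by
        rw [← hu]
        exact Subring.mul_mem _ (hθ k (by omega)) (Subring.mul_mem _ hQS
          (Subring.mul_mem _ (Subring.pow_mem _ ho k) hPS))
      refine ⟨hpi, ?_⟩
      have h6 := kap_eq L (θ k) (k := k) (by omega) (h1 k (by omega)) (h2 k (by omega))
      rw [← hik', ← L.κ2 k (by omega), h6, hik]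
      exact Subring.mul_mem _ (Subring.pow_mem _ ho k) (Subring.mul_mem _ hpi (hθ k (by omega)))
  have hpn : L.p n ∈ S := by
    have h3 : L.p n = 1 - ∑ j ∈ (Finset.range (2 * n + 1)).erase n, L.p j := by
      rw [← L.sum, ← Finset.add_sum_erase _ _ (Finset.mem_range.2 (by omega :
        n < 2 * n + 1)), add_sub_cancel_right]
    rw [h3]
    refine Subring.sub_mem _ (Subring.one_mem _) (Subring.sum_mem _ fun j hj => ?_)
    rw [Finset.mem_erase, Finset.mem_range] at hj
    rcases Nat.lt_or_ge j n with h4 | h4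
    · exact (key j h4).1
    · have := (key (2 * n - j) (by omega)).2
      rwa [show 2 * n - (2 * n - j) = j by omega] at this
  intro k hk
  rw [kap_eq L (θ k) hk (h1 k hk) (h2 k hk)]
  refine Subring.mul_mem _ ?_ (hθ k hk)
  rcases Nat.eq_zero_or_pos k with h3 | h3
  · rw [h3, Nat.sub_zero]
    exact hpn
  · exact (key (n - k) (by omega)).1

end lef

variable {𝒪 : Type u} [Category.{v} 𝒪] [Preadditive 𝒪] [Linear ℚ 𝒪] {n : ℕ}
  (T : CorTheory 𝒪 n) {X Y : 𝒪}

/-- The ring of algebraic operators. -/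
def algS (X : 𝒪) : Subring (Module.End ℂ (T.K X).R) where
  carrier := {a | IsAlg T a}
  mul_mem' := fun {a b} ha hb => IsAlg.mul T ha hb
  one_mem' := IsAlg.one T
  add_mem' := fun {a b} ha hb => IsAlg.add T ha hb
  zero_mem' := IsAlg.zero T
  neg_mem' := fun {a} ha => by
    obtain ⟨Γ, rfl⟩ := ha
    exact ⟨-Γ, map_neg _ _⟩

lemma conjB_of_kap (h : ∀ k, k ≤ n → IsAlg T (kap (T.K X) k)) : T.ConjB X := by
  intro k hk
  obtain ⟨Γ, hΓ⟩ := h k hk
  refine ⟨Γ, fun p q y hy hpq => ?_, fun p q y hy hpq => ?_⟩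
  · rw [hΓ]
    exact ⟨kap_mem (T.K X) hpq hy, om_kap (T.K X) hpq hy⟩
  · have h1 := congrArg (fun f : Module.End ℂ (T.K X).R => f y) (kap_spec (T.K X) hk).2.1
    simp only [Module.End.mul_apply] at h1
    rw [hΓ, ← h1, dg_of (T.K X) hy, if_neg (by push_cast; exact hpq), map_zero]

/-- The components of an algebraic operator are algebraic. -/
lemma act_cj (Γ : X ⟶ Y) (j : ℤ) {m : ℕ} {p q : ℤ} {x : (T.K X).R} (hx : x ∈ (T.K X).H (p, q))
    (hm : p + q + 2 * j = m) :
    T.act (cmp (T.isInternal X Y) j Γ) x = dg (T.K Y) m (T.act Γ x) := by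
  have hΓ : Γ ∈ ⨆ i, T.gr X Y i := by
    rw [(T.isInternal X Y).submodule_iSup_eq_top]
    exact Submodule.mem_top
  refine Submodule.iSup_induction (T.gr X Y)
    (motive := fun Γ => T.act (cmp (T.isInternal X Y) j Γ) x = dg (T.K Y) m (T.act Γ x)) hΓ
    (fun i Δ hΔ => ?_) ?_ (fun Δ Δ' h1 h2 => ?_)
  · have h1 := T.act_mem hΔ p q x hx
    rw [dg_of (T.K Y) h1]
    by_cases hi : i = j
    · subst hi
      rw [if_pos (by omega), cmp_of_mem _ hΔ]
    · rw [if_neg (by omega), cmp_of_ne _ hΔ hi, map_zero, LinearMap.zero_apply]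
  · rw [map_zero, map_zero, LinearMap.zero_apply, map_zero]
  · rw [map_add, map_add, map_add, LinearMap.add_apply, LinearMap.add_apply, map_add, h1, h2]

/-- If the ring of algebraic operators is regular, the standard conjecture holds. -/
theorem conjB_of_regular
    (hreg : ∀ a : Module.End ℂ (T.K Y).R, IsAlg T a → ∃ x, IsAlg T x ∧ a * x * a = a) :
    T.ConjB Y := by
  have hθ : ∀ k, k ≤ n → ∃ θ : Module.End ℂ (T.K Y).R, IsAlg T θ ∧
      θ * ((lef (T.K Y)).o ^ k * (lef (T.K Y)).p (n - k)) = (lef (T.K Y)).p (n - k) ∧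
      (lef (T.K Y)).p (n - k) * θ = θ * (lef (T.K Y)).p (n + k) := by
    intro k hk
    obtain ⟨_, ⟨Γ, rfl⟩, hb⟩ := hreg _ (IsAlg.pow T (isAlg_om T (X := Y)) k)
    refine ⟨T.act (cmp (T.isInternal Y Y) (-k) Γ), isAlg_act T _, ?_, ?_⟩
    · show T.act _ * (mu (T.K Y) (T.K Y).ω ^ k * dg (T.K Y) (n - k)) = dg (T.K Y) (n - k)
      refine hom_ext (T.K Y) fun p q x hx => ?_
      simp only [Module.End.mul_apply]
      rw [dg_of (T.K Y) hx]
      split_ifs with hpq
      · rw [mu_pow]
        have hω : (T.K Y).ω ^ k ∈ (T.K Y).H ((k : ℤ), (k : ℤ)) := by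
          have := SetLike.pow_mem_graded k (T.K Y).ω_mem
          simpa using this
        have h1 : (T.K Y).ω ^ k * x ∈ (T.K Y).H (p + k, q + k) := by
          have := (T.K Y).mul_mem hω hx
          rwa [add_comm (k : ℤ) p, add_comm (k : ℤ) q] at this
        have h2 := T.act_mem (cmp_mem (T.isInternal Y Y) (-k) Γ) _ _ _ h1
        rw [add_neg_cancel_right, add_neg_cancel_right] at h2
        rw [← sub_eq_zero]
        refine (T.K Y).hl_inj p q k (by omega) _ (Submodule.sub_mem _ h2 hx) ?_
        rw [mul_sub, act_cj T Γ (-k) (m := n - k) h1 (by push_cast; omega)]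
        have h3 := congrArg (fun f : Module.End ℂ (T.K Y).R => f x) hb
        simp only [Module.End.mul_apply, mu_pow] at h3
        have h4 := congrArg (fun f : Module.End ℂ (T.K Y).R => f (T.act Γ ((T.K Y).ω ^ k * x)))
          ((lef (T.K Y)).o_pow_p k (n - k))
        have h5 : (T.K Y).ω ^ k * dg (T.K Y) (n - k) (T.act Γ ((T.K Y).ω ^ k * x)) =
            dg (T.K Y) (n - k + 2 * k) ((T.K Y).ω ^ k * T.act Γ ((T.K Y).ω ^ k * x)) := by
          rw [← mu_pow (T.K Y) (T.K Y).ω k (dg _ _ _), ← mu_pow (T.K Y) (T.K Y).ω k (T.act Γ _)]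
          exact h4
        rw [h5, h3, dg_of (T.K Y) h1, if_pos (by push_cast; omega), sub_self]
      · simp only [map_zero]
    · show dg (T.K Y) (n - k) * T.act _ = T.act _ * dg (T.K Y) (n + k)
      refine hom_ext (T.K Y) fun p q x hx => ?_
      simp only [Module.End.mul_apply]
      have h2 := T.act_mem (cmp_mem (T.isInternal Y Y) (-k) Γ) _ _ _ hx
      rw [dg_of (T.K Y) h2, dg_of (T.K Y) hx]
      by_cases h3 : p + q = ((n + k : ℕ) : ℤ)
      · rw [if_pos (by push_cast at h3 ⊢; omega), if_pos h3]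
      · rw [if_neg (by push_cast at h3 ⊢; omega), if_neg h3, map_zero]
  choose! θ g1 g2 g3 using hθ
  apply conjB_of_kap
  exact lef_mem (lef (T.K Y)) (algS T Y) (isAlg_om T) θ g1 g2 g3

/-- The standard conjecture of Lefschetz type is a derived invariant. -/
theorem conjB_trans (hB : T.ConjB X) {v : X ⟶ Y} {w : Y ⟶ X} (h : T.IsDerivedPair v w) :
    T.ConjB Y := by
  apply conjB_of_regular
  intro b hb
  obtain ⟨A, _⟩ := exists_actM T hB
  have _ := A.semisimple
  obtain ⟨a, rfl⟩ := exists_F T h hb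
  obtain ⟨x, hx⟩ := exists_regular a
  exact ⟨rhoF T h x, rhoF_alg T h x, by rw [← map_mul, ← map_mul, hx]⟩

end Pool.Agent.N174.OC
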